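import Pool.Agent.Lib_helper24.GRH.Odd

/-!
# Critical zeros of almost all real Dirichlet L-functions: definitions (MP_77948b_nt)
-/

namespace Pool.Agent.RC

open Complex MeasureTheory Filter Topology

/-- Moduli of the four primitive real characters of conductor dividing `8`. -/
def cc (j : Fin 4) : ℕ := ![1, 4, 8, 8] j

/-- The four real characters of conductor `1, 4, 8, 8`. -/
def psi (j : Fin 4) (n : ℕ) : ℤ :=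
  ![1, ZMod.χ₄ (n : ZMod 4), ZMod.χ₈ (n : ZMod 8), ZMod.χ₈' (n : ZMod 8)] j

/-- The values `ψ_j(n) (n/m)`. -/
def rv (j : Fin 4) (m n : ℕ) : ℤ := psi j n * jacobiSym n m

/-- `f0 κ y = 2 y^κ exp(-π y²)`. -/
noncomputable def f0 (κ : ℕ) (y : ℝ) : ℝ := 2 * (y ^ κ * Real.exp (-Real.pi * y ^ 2))

/-- `f1 = f0/2 + y f0'`. -/
noncomputable def f1 (κ : ℕ) (y : ℝ) : ℝ := (1 / 2 + κ - 2 * Real.pi * y ^ 2) * f0 κ y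

/-- `f2 = f1/2 + y f1'`. -/
noncomputable def f2 (κ : ℕ) (y : ℝ) : ℝ :=
  ((1 / 2 + κ - 2 * Real.pi * y ^ 2) ^ 2 - 4 * Real.pi * y ^ 2) * f0 κ y

/-- `C¹` functions with decay on `[0, ∞)`. -/
structure Dec (f : ℝ → ℝ) : Prop where
  smooth : ContDiff ℝ 1 f
  bd : ∃ C : ℝ, ∀ y : ℝ, 0 ≤ y → |f y| ≤ C / (1 + y) ^ 6 ∧ |deriv f y| ≤ C / (1 + y) ^ 6

/-- Admissible kernels: moreover `∫₀^∞ f(t²) dt = 0`. -/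
structure Ker (f : ℝ → ℝ) : Prop extends Dec f where
  zero : ∫ t in Set.Ioi (0 : ℝ), f (t ^ 2) = 0

/-- `DD f P j m u = e^{u/2} ∑_{(n,P)=1} ψ_j(n) (n/m) f(n e^u)`. -/
noncomputable def DD (f : ℝ → ℝ) (P : ℕ) (j : Fin 4) (m : ℕ) (u : ℝ) : ℝ :=
  Real.exp (u / 2) * ∑' n : ℕ, (rv j m n : ℝ) * (if n.Coprime P then f (n * Real.exp u) else 0)

/-- `χ` is the primitive real character attached to `(j, m)`, of parity `κ`. -/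
def IsRC (κ : ℕ) (j : Fin 4) (m : ℕ) (χ : DirichletCharacter ℂ (cc j * m)) : Prop :=
  χ.IsPrimitive ∧ (∀ n : ℕ, χ n = (rv j m n : ℂ)) ∧ ((κ = 0 ∧ χ.Even) ∨ (κ = 1 ∧ χ.Odd))

/-- `m` is odd, `m ≥ 2` and `(j, m)` gives a primitive real character of parity `κ`. -/
def Good (κ : ℕ) (j : Fin 4) (m : ℕ) : Prop :=
  Odd m ∧ 2 ≤ m ∧ ∃ χ : DirichletCharacter ℂ (cc j * m), IsRC κ j m χ

/-- `Lr κ j m t = (i/t) ∫ DD (f1 κ) 1 j m u e^{itu} du`, which is `Λ(1/2+it, χ)` for `t ≠ 0`. -/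
noncomputable def Lr (κ : ℕ) (j : Fin 4) (m : ℕ) (t : ℝ) : ℂ :=
  I / t * ∫ u : ℝ, (DD (f1 κ) 1 j m u : ℂ) * cexp (t * u * I)

/-- Fourier transform. -/
noncomputable def hatc (θ : ℝ → ℂ) (u : ℝ) : ℂ := ∫ t : ℝ, θ t * cexp (t * u * I)

/-- `k1 κ z = e^{z/2} f1 κ (e^z)`. -/
noncomputable def k1 (κ : ℕ) (z : ℝ) : ℝ := Real.exp (z / 2) * f1 κ (Real.exp z)

/-- `γ_κ(t) = Γ_ℝ(1/2 + κ + it)`. -/
noncomputable def gm (κ : ℕ) (t : ℝ) : ℂ := Gammaℝ (1 / 2 + κ + t * I)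

/-- Primes up to `P`. -/
def pr (P : ℕ) : Finset ℕ := (Finset.range (P + 1)).filter Nat.Prime

/-- The modulus `8 ∏_{p ≤ P} p`. -/
def RR (P : ℕ) : ℕ := 8 * ∏ p ∈ pr P, p

/-- `ζ(1+2it) ∏_{p ≤ P} (1 - p^{-1-2it})`. -/
noncomputable def zr (P : ℕ) (t : ℝ) : ℂ :=
  riemannZeta (1 + 2 * t * I) * ∏ p ∈ pr P, (1 - (p : ℂ) ^ (-(1 + 2 * t * I) : ℂ))

/-- `∏_{p ≤ P} (1 - ψ_j(p) (p/c) p^{-1/2-it})⁻¹`. -/
noncomputable def EP (j : Fin 4) (P c : ℕ) (t : ℝ) : ℂ :=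
  ∏ p ∈ pr P, (1 - (rv j c p : ℂ) * (p : ℂ) ^ (-(1 / 2 + t * I) : ℂ))⁻¹

/-- `sr R m = ∑_{d ∣ m, (d,R)=1} 1/d`. -/
noncomputable def sr (R m : ℕ) : ℝ := ∑ d ∈ m.divisors.filter (fun d => d.Coprime R), 1 / (d : ℝ)

/-- `sq b m k = ∑_{(a,m)=1} b(k a²)`. -/
noncomputable def sq (b : ℕ → ℂ) (m k : ℕ) : ℂ :=
  ∑' a : ℕ, if 0 < a ∧ a.Coprime m then b (k * a ^ 2) else 0

/-- `QV b m = ∑_{k squarefree, (k,m)=1} |sq b m k|²`. -/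
noncomputable def QV (b : ℕ → ℂ) (m : ℕ) : ℝ :=
  ∑' k : ℕ, if Squarefree k ∧ k.Coprime m then ‖sq b m k‖ ^ 2 else 0

/-- `BB R g y = ∑_{(a,R)=1} a⁻¹ g(y + 2 log a)`. -/
noncomputable def BB (R : ℕ) (g : ℝ → ℂ) (y : ℝ) : ℂ :=
  ∑' a : ℕ, if 0 < a ∧ a.Coprime R then (1 / (a : ℂ)) * g (y + 2 * Real.log a) else 0

/-- `p^{-1/2-it}`. -/
noncomputable def zz (p : ℕ) (t : ℝ) : ℂ := (p : ℂ) ^ (-(1 / 2 + t * I) : ℂ)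

/-- Local mean of `|1 - X z|⁻¹`. -/
noncomputable def mp (p : ℕ) (t : ℝ) : ℝ :=
  1 / p + (1 - 1 / p) * ((‖1 - zz p t‖⁻¹ + ‖1 + zz p t‖⁻¹) / 2)

/-- Local mean of `|1 - X z|⁻¹ |1 - X z'|⁻¹`. -/
noncomputable def mp2 (p : ℕ) (t s : ℝ) : ℝ :=
  1 / p + (1 - 1 / p) *
    ((‖1 - zz p t‖⁻¹ * ‖1 - zz p s‖⁻¹ + ‖1 + zz p t‖⁻¹ * ‖1 + zz p s‖⁻¹) / 2)

/-- Local mean of `|1 - X z|⁻²`. -/
noncomputable def mq (p : ℕ) (t : ℝ) : ℝ :=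
  1 / p + (1 - 1 / p) * ((‖1 - zz p t‖⁻¹ ^ 2 + ‖1 + zz p t‖⁻¹ ^ 2) / 2)

/-- Primes in `(P0, P]`. -/
def prr (P0 P : ℕ) : Finset ℕ := (pr P).filter (P0 < ·)

/-- `gU κ U h x = ∫_{-U}^{U} k1(x+u) h(u) du`. -/
noncomputable def gU (κ : ℕ) (U : ℝ) (h : ℝ → ℂ) (x : ℝ) : ℂ :=
  ∫ u in (-U)..U, (k1 κ (x + u) : ℂ) * h u

/-- `gI κ h x = ∫ k1(x+u) h(u) du`. -/
noncomputable def gI (κ : ℕ) (h : ℝ → ℂ) (x : ℝ) : ℂ :=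
  ∫ u : ℝ, (k1 κ (x + u) : ℂ) * h u

/-- `wt R g n = n^{-1/2} g(log n)` for `n` coprime to `R`. -/
noncomputable def wt (R : ℕ) (g : ℝ → ℂ) (n : ℕ) : ℂ :=
  if 0 < n ∧ n.Coprime R then ((1 / √(n : ℝ) : ℝ) : ℂ) * g (Real.log n) else 0

/-- `vk R F x k = ‖F(log k + x)‖²/k` for `k > 1` coprime to `R`. -/
noncomputable def vk (R : ℕ) (F : ℝ → ℂ) (x : ℝ) (k : ℕ) : ℝ :=
  if 1 < k ∧ k.Coprime R then 1 / (k : ℝ) * ‖F (Real.log k + x)‖ ^ 2 else 0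

/-- Odd integers in `[K, 2K)`. -/
def blk (K : ℕ) : Finset ℕ := (Finset.Ico K (2 * K)).filter Odd

/-- Integers in `[K, 2K)` congruent to `c` mod `R`. -/
def cls (R c K : ℕ) : Finset ℕ := (Finset.Ico K (2 * K)).filter fun m => m % R = c % R

/-- Odd integers below `R`. -/
def odds (R : ℕ) : Finset ℕ := (Finset.range R).filter Odd

open Classical in
/-- Good `m` in `[K, 2K)`. -/
noncomputable def gblk (κ : ℕ) (j : Fin 4) (K : ℕ) : Finset ℕ :=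
  (Finset.Ico K (2 * K)).filter (Good κ j)

end Pool.Agent.RC
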